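import Mathlib
import Pool.Agent.Helper804_obstruct.Core
import Pool.Agent.Helper804_obstruct.Parabola

/-!
# Planting an obstruction to simple spanning alternating paths in an arbitrarily small region

For every bicolored point set `W` in general position, every nonempty open set `U` and every `q`
there is a bicolored set `O` inside `U` such that `W ∪ O` is balanced, in general position, and
every simple alternating path of `W ∪ O` misses at least `q` points.
-/

namespace Pool.Agent.Results.MP_c6c039_lc.LocalObstruction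

open Helper804Obstruct

/-- `p 0, …, p (k - 1)` are the vertices of a simple alternating path of the bicolored point set
with red points `R` and blue points `B`. -/
structure IsSimpleAltPath (R B : Finset (ℝ × ℝ)) (k : ℕ) (p : ℕ → ℝ × ℝ) : Prop where
  /-- the vertices are points of the set -/
  mem : ∀ i < k, p i ∈ R ∪ B
  /-- the vertices are distinct -/
  inj : ∀ i < k, ∀ j < k, p i = p j → i = j
  /-- each edge joins a red point and a blue point -/
  alt : ∀ i, i + 1 < k → (p i ∈ R ∧ p (i + 1) ∈ B) ∨ (p i ∈ B ∧ p (i + 1) ∈ R)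
  /-- consecutive edges share only their common endpoint -/
  consec : ∀ i, i + 2 < k →
    segment ℝ (p i) (p (i + 1)) ∩ segment ℝ (p (i + 1)) (p (i + 2)) = {p (i + 1)}
  /-- other edges are disjoint -/
  nonconsec : ∀ i j, i + 1 < j → j + 1 < k →
    Disjoint (segment ℝ (p i) (p (i + 1))) (segment ℝ (p j) (p (j + 1)))

/-- `E` is a finite set of edges, each written as (red end, blue end), such that every point lies
on at most two of them and edges without a common end are disjoint segments. -/
structure IsPlaneTwoMatching (R B : Finset (ℝ × ℝ)) (E : Finset ((ℝ × ℝ) × (ℝ × ℝ))) : Prop where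
  red : ∀ e ∈ E, e.1 ∈ R
  blue : ∀ e ∈ E, e.2 ∈ B
  degRed : ∀ r ∈ R, (E.filter (fun e => e.1 = r)).card ≤ 2
  degBlue : ∀ b ∈ B, (E.filter (fun e => e.2 = b)).card ≤ 2
  noncrossing : ∀ e ∈ E, ∀ f ∈ E, e.1 ≠ f.1 → e.2 ≠ f.2 →
    Disjoint (segment ℝ e.1 e.2) (segment ℝ f.1 f.2)

open Classical in
/-- the edges of a simple alternating path form a plane two-matching with `k - 1` edges -/
lemma path_to_matching (R B : Finset (ℝ × ℝ)) (hRB : Disjoint R B) (k : ℕ) (hk : 1 ≤ k)
    (p : ℕ → ℝ × ℝ) (h : IsSimpleAltPath R B k p) :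
    ∃ E, IsPlaneTwoMatching R B E ∧ E.card = k - 1 := by
  set edge : ℕ → (ℝ × ℝ) × (ℝ × ℝ) := fun i =>
    if p i ∈ R then (p i, p (i + 1)) else (p (i + 1), p i) with hedge
  have hRB' : ∀ x, x ∈ R → x ∈ B → False := fun x h1 h2 =>
    (Finset.disjoint_left.mp hRB) h1 h2
  have hcase : ∀ i, i + 1 < k →
      (edge i = (p i, p (i + 1)) ∧ p i ∈ R ∧ p (i + 1) ∈ B) ∨
      (edge i = (p (i + 1), p i) ∧ p (i + 1) ∈ R ∧ p i ∈ B) := by
    intro i hi
    rcases h.alt i hi with ⟨h1, h2⟩ | ⟨h1, h2⟩
    · left
      exact ⟨by simp only [hedge, if_pos h1], h1, h2⟩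
    · right
      have : p i ∉ R := fun hh => hRB' _ hh h1
      exact ⟨by simp only [hedge, if_neg this], h2, h1⟩
  have hinj : Set.InjOn edge (Finset.range (k - 1) : Set ℕ) := by
    intro i hi j hj hij
    simp only [Finset.coe_range, Set.mem_Iio] at hi hj
    rcases hcase i (by omega) with ⟨e1, -, -⟩ | ⟨e1, -, -⟩ <;>
    rcases hcase j (by omega) with ⟨e2, -, -⟩ | ⟨e2, -, -⟩ <;>
    rw [e1, e2, Prod.mk.injEq] at hij
    · exact h.inj i (by omega) j (by omega) hij.1
    · have a1 := h.inj i (by omega) (j + 1) (by omega) hij.1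
      have a2 := h.inj (i + 1) (by omega) j (by omega) hij.2
      omega
    · have a1 := h.inj (i + 1) (by omega) j (by omega) hij.1
      have a2 := h.inj i (by omega) (j + 1) (by omega) hij.2
      omega
    · exact h.inj i (by omega) j (by omega) hij.2
  have hdeg : ∀ m < k, ∀ (s : Finset ((ℝ × ℝ) × (ℝ × ℝ))),
      (∀ e ∈ s, ∃ i, i + 1 < k ∧ e = edge i ∧ (p i = p m ∨ p (i + 1) = p m)) → s.card ≤ 2 := by
    intro m hm s hs
    have hsub : s ⊆ {edge m, edge (m - 1)} := by
      intro e he
      obtain ⟨i, hi, rfl, hor⟩ := hs e he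
      rw [Finset.mem_insert, Finset.mem_singleton]
      rcases hor with h1 | h1
      · left
        rw [h.inj i (by omega) m hm h1]
      · right
        have := h.inj (i + 1) hi m hm h1
        have : m - 1 = i := by omega
        rw [this]
    exact (Finset.card_le_card hsub).trans Finset.card_le_two
  refine ⟨(Finset.range (k - 1)).image edge, ⟨?_, ?_, ?_, ?_, ?_⟩, ?_⟩
  · intro e he
    rw [Finset.mem_image] at he
    obtain ⟨i, hi, rfl⟩ := he
    rw [Finset.mem_range] at hi
    rcases hcase i (by omega) with ⟨e1, h1, h2⟩ | ⟨e1, h1, h2⟩ <;> rw [e1] <;> exact h1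
  · intro e he
    rw [Finset.mem_image] at he
    obtain ⟨i, hi, rfl⟩ := he
    rw [Finset.mem_range] at hi
    rcases hcase i (by omega) with ⟨e1, h1, h2⟩ | ⟨e1, h1, h2⟩ <;> rw [e1] <;> exact h2
  · intro r hr
    by_cases hex : ∃ m < k, p m = r
    · obtain ⟨m, hm, rfl⟩ := hex
      apply hdeg m hm
      intro e he
      rw [Finset.mem_filter, Finset.mem_image] at he
      obtain ⟨⟨i, hi, rfl⟩, he1⟩ := he
      rw [Finset.mem_range] at hi
      refine ⟨i, by omega, rfl, ?_⟩
      rcases hcase i (by omega) with ⟨e1, h1, h2⟩ | ⟨e1, h1, h2⟩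
      · left
        rw [e1] at he1
        exact he1
      · right
        rw [e1] at he1
        exact he1
    · push Not at hex
      rw [Finset.card_eq_zero.mpr]
      · omega
      · rw [Finset.filter_eq_empty_iff]
        intro e he he1
        rw [Finset.mem_image] at he
        obtain ⟨i, hi, rfl⟩ := he
        rw [Finset.mem_range] at hi
        rcases hcase i (by omega) with ⟨e1, h1, h2⟩ | ⟨e1, h1, h2⟩
        · rw [e1] at he1
          exact hex i (by omega) he1
        · rw [e1] at he1
          exact hex (i + 1) (by omega) he1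
  · intro r hr
    by_cases hex : ∃ m < k, p m = r
    · obtain ⟨m, hm, rfl⟩ := hex
      apply hdeg m hm
      intro e he
      rw [Finset.mem_filter, Finset.mem_image] at he
      obtain ⟨⟨i, hi, rfl⟩, he1⟩ := he
      rw [Finset.mem_range] at hi
      refine ⟨i, by omega, rfl, ?_⟩
      rcases hcase i (by omega) with ⟨e1, h1, h2⟩ | ⟨e1, h1, h2⟩
      · right
        rw [e1] at he1
        exact he1
      · left
        rw [e1] at he1
        exact he1
    · push Not at hex
      rw [Finset.card_eq_zero.mpr]
      · omega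
      · rw [Finset.filter_eq_empty_iff]
        intro e he he1
        rw [Finset.mem_image] at he
        obtain ⟨i, hi, rfl⟩ := he
        rw [Finset.mem_range] at hi
        rcases hcase i (by omega) with ⟨e1, h1, h2⟩ | ⟨e1, h1, h2⟩
        · rw [e1] at he1
          exact hex (i + 1) (by omega) he1
        · rw [e1] at he1
          exact hex i (by omega) he1
  · have key : ∀ i j, i + 1 < k → j + 1 < k → (edge i).1 ≠ (edge j).1 → (edge i).2 ≠ (edge j).2 →
        i < j → Disjoint (segment ℝ (edge i).1 (edge i).2) (segment ℝ (edge j).1 (edge j).2) := by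
      intro i j hi hj hn1 hn2 hij
      have hij' : i + 1 < j := by
        by_contra hcon
        have hje : j = i + 1 := by omega
        subst hje
        rcases hcase i hi with ⟨e1, h1, h2⟩ | ⟨e1, h1, h2⟩ <;>
        rcases hcase (i + 1) hj with ⟨e2, h3, h4⟩ | ⟨e2, h3, h4⟩ <;>
        rw [e1, e2] at hn1 hn2
        · exact hRB' _ h3 h2
        · exact hn2 rfl
        · exact hn1 rfl
        · exact hRB' _ h1 h4
      have hd := h.nonconsec i j hij' hj
      rcases hcase i hi with ⟨e1, -, -⟩ | ⟨e1, -, -⟩ <;>
      rcases hcase j hj with ⟨e2, -, -⟩ | ⟨e2, -, -⟩ <;>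
      rw [e1, e2]
      · exact hd
      · rw [segment_symm ℝ (p (j + 1))]
        exact hd
      · rw [segment_symm ℝ (p (i + 1))]
        exact hd
      · rw [segment_symm ℝ (p (i + 1)), segment_symm ℝ (p (j + 1))]
        exact hd
    intro e he f hf hn1 hn2
    rw [Finset.mem_image] at he hf
    obtain ⟨i, hi, rfl⟩ := he
    obtain ⟨j, hj, rfl⟩ := hf
    rw [Finset.mem_range] at hi hj
    rcases lt_trichotomy i j with hlt | heq | hgt
    · exact key i j (by omega) (by omega) hn1 hn2 hlt
    · subst heq
      exact absurd rfl hn1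
    · exact (key j i (by omega) (by omega) (Ne.symm hn1) (Ne.symm hn2) hgt).symm
  · rw [Finset.card_image_of_injOn hinj, Finset.card_range]

lemma chord_cross (a b : ℝ) (s : ℕ → ℚ) (n : ℕ) (hs : ∀ t t', t < t' → t' < n → s t < s t')
    (x y z w : ℕ) (hx : x < n) (hy : y < n) (hz : z < n) (hw : w < n)
    (h1 : min x y < min z w) (h2 : min z w < max x y) (h3 : max x y < max z w) :
    ¬ Disjoint (segment ℝ (par a b (s x)) (par a b (s y)))
      (segment ℝ (par a b (s z)) (par a b (s w))) := by
  have hxy : segment ℝ (par a b (s x)) (par a b (s y))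
      = segment ℝ (par a b (s (min x y))) (par a b (s (max x y))) := by
    rcases le_total x y with hh | hh
    · rw [min_eq_left hh, max_eq_right hh]
    · rw [min_eq_right hh, max_eq_left hh, segment_symm]
  have hzw : segment ℝ (par a b (s z)) (par a b (s w))
      = segment ℝ (par a b (s (min z w))) (par a b (s (max z w))) := by
    rcases le_total z w with hh | hh
    · rw [min_eq_left hh, max_eq_right hh]
    · rw [min_eq_right hh, max_eq_left hh, segment_symm]
  rw [hxy, hzw]
  have m1 : max x y < n := max_lt hx hy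
  have m2 : max z w < n := max_lt hz hw
  apply par_cross
  · exact_mod_cast hs _ _ h1 (by omega)
  · exact_mod_cast hs _ _ h2 m1
  · exact_mod_cast hs _ _ h3 m2

lemma ht_tail (L k : ℕ) (hk : 1 ≤ k) (m : ℕ) :
    ht L k ((k - 1) * (L + 2) + L + m) = ht L k ((k - 1) * (L + 2) + L) - m := by
  induction m with
  | zero => simp
  | succ m ih =>
    have hstep : ht L k ((k - 1) * (L + 2) + L + (m + 1))
        = ht L k ((k - 1) * (L + 2) + L + m) + sgn L k ((k - 1) * (L + 2) + L + m) := by
      unfold ht
      rw [← add_assoc, Finset.sum_range_succ]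
    have hred : redPos L k ((k - 1) * (L + 2) + L + m) := by
      by_cases hm : m < 2
      · rw [add_assoc, redPos_block L k (k - 1) (by omega) (L + m) (by omega)]
        omega
      · right
        have e : k * (L + 2) = (k - 1) * (L + 2) + (L + 2) := by
          obtain ⟨j, rfl⟩ : ∃ j, k = j + 1 := ⟨k - 1, by omega⟩
          simp only [Nat.add_sub_cancel]
          ring
        omega
    rw [hstep, ih]
    unfold sgn
    rw [if_pos hred]
    push_cast
    ring

open Classical in
/-- **Local obstruction theorem.** -/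
theorem result (WR WB : Finset (ℝ × ℝ)) (hW : Disjoint WR WB)
    (hgp : GeneralPosition (WR ∪ WB)) (U : Set (ℝ × ℝ)) (hU : IsOpen U) (hne : U.Nonempty)
    (q : ℕ) :
    ∃ OR OB : Finset (ℝ × ℝ),
      (∀ p ∈ OR ∪ OB, p ∈ U ∧ ∃ a b : ℚ, p = ((a : ℝ), (b : ℝ))) ∧
      Disjoint OR OB ∧ Disjoint (WR ∪ WB) (OR ∪ OB) ∧
      GeneralPosition ((WR ∪ OR) ∪ (WB ∪ OB)) ∧
      (WR ∪ OR).card = (WB ∪ OB).card ∧
      (OR ∪ OB).card ≤ 8 * ((WR ∪ WB).card + q + 3) ^ 2 ∧
      (∀ E, IsPlaneTwoMatching (WR ∪ OR) (WB ∪ OB) E →
        E.card + q < ((WR ∪ OR) ∪ (WB ∪ OB)).card) ∧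
      (∀ k p, IsSimpleAltPath (WR ∪ OR) (WB ∪ OB) k p →
        k + q ≤ ((WR ∪ OR) ∪ (WB ∪ OB)).card) := by
  -- a small parabola arc inside `U`
  obtain ⟨a, b, δ, hδ, hpar⟩ : ∃ (a b : ℚ) (δ : ℝ), 0 < δ ∧
      ∀ s : ℝ, 0 < s → s < δ → par a b s ∈ U := by
    obtain ⟨c, hc⟩ := hne
    obtain ⟨ε, hε, hball⟩ := Metric.isOpen_iff.mp hU c hc
    obtain ⟨a, ha1, ha2⟩ := exists_rat_btwn (show c.1 - ε / 4 < c.1 + ε / 4 by linarith)
    obtain ⟨b, hb1, hb2⟩ := exists_rat_btwn (show c.2 - ε / 4 < c.2 + ε / 4 by linarith)
    refine ⟨a, b, min 1 (ε / 4), by positivity, ?_⟩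
    intro s hs0 hs
    have hs1 : s < 1 := lt_of_lt_of_le hs (min_le_left _ _)
    have hs2 : s < ε / 4 := lt_of_lt_of_le hs (min_le_right _ _)
    have hss : s ^ 2 < ε / 4 := by nlinarith
    have hss0 : 0 < s ^ 2 := by positivity
    apply hball
    rw [Metric.mem_ball, Prod.dist_eq, max_lt_iff, Real.dist_eq, Real.dist_eq, abs_lt, abs_lt]
    simp only [par]
    refine ⟨⟨?_, ?_⟩, ⟨?_, ?_⟩⟩ <;> linarith
  -- parameters
  set w := (WR ∪ WB).card with hw
  have hwcard : WR.card + WB.card = w := by
    rw [hw, Finset.card_union_of_disjoint hW]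
  set T := 2 * (w + q) with hT
  set k := T + 2 with hk
  set L := T + 8 with hL
  set n := 2 * k * L + WB.card - WR.card with hn
  have hkL : w + 8 * k ≤ k * L := by
    rw [hL]
    nlinarith
  have hwr : WR.card ≤ w := by omega
  have hn' : n + WR.card = 2 * (k * L) + WB.card := by
    rw [hn, mul_assoc]
    omega
  have hkL2 : k * (L + 2) = k * L + 2 * k := by ring
  obtain ⟨s, lo, hlo0, hlo1, hs1, hs2, hs3, hs4⟩ := exists_seq (WR ∪ WB) hgp a b δ hδ n
  set pt : ℕ → ℝ × ℝ := fun t => par a b (s t) with hpt
  have ptinj : ∀ t < n, ∀ t' < n, pt t = pt t' → t = t' := by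
    intro t ht t' ht' hh
    have h1 : (s t : ℝ) = s t' := par_inj hh
    have h2 : s t = s t' := by exact_mod_cast h1
    rcases lt_trichotomy t t' with hlt | heq | hgt
    · exact absurd h2 (ne_of_lt (hs2 t t' hlt ht'))
    · exact heq
    · exact absurd h2.symm (ne_of_lt (hs2 t' t hgt ht))
  set redF := (Finset.range n).filter (fun t => redPos L k t) with hredF
  set blueF := (Finset.range n).filter (fun t => ¬ redPos L k t) with hblueF
  set OR := redF.image pt with hOR
  set OB := blueF.image pt with hOB
  have hmemR : ∀ x ∈ OR, ∃ t < n, redPos L k t ∧ pt t = x := by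
    intro x hx
    rw [hOR, Finset.mem_image] at hx
    obtain ⟨t, ht, rfl⟩ := hx
    rw [hredF, Finset.mem_filter, Finset.mem_range] at ht
    exact ⟨t, ht.1, ht.2, rfl⟩
  have hmemB : ∀ x ∈ OB, ∃ t < n, ¬ redPos L k t ∧ pt t = x := by
    intro x hx
    rw [hOB, Finset.mem_image] at hx
    obtain ⟨t, ht, rfl⟩ := hx
    rw [hblueF, Finset.mem_filter, Finset.mem_range] at ht
    exact ⟨t, ht.1, ht.2, rfl⟩
  have hmem : ∀ x ∈ OR ∪ OB, ∃ t < n, pt t = x := by
    intro x hx
    rw [Finset.mem_union] at hx
    rcases hx with hx | hx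
    · obtain ⟨t, ht, _, he⟩ := hmemR x hx
      exact ⟨t, ht, he⟩
    · obtain ⟨t, ht, _, he⟩ := hmemB x hx
      exact ⟨t, ht, he⟩
  have hORB : Disjoint OR OB := by
    rw [Finset.disjoint_left]
    intro x hx hy
    obtain ⟨t, ht, hr, he⟩ := hmemR x hx
    obtain ⟨t', ht', hr', he'⟩ := hmemB x hy
    have := ptinj t ht t' ht' (he.trans he'.symm)
    subst this
    exact hr' hr
  have hWO : Disjoint (WR ∪ WB) (OR ∪ OB) := by
    rw [Finset.disjoint_left]
    intro x hx hy
    obtain ⟨t, ht, he⟩ := hmem x hy
    exact hs3 t ht (by rw [← he] at hx; exact hx)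
  have hcardR : OR.card = redF.card := by
    rw [hOR, Finset.card_image_of_injOn]
    intro t ht t' ht' hh
    rw [hredF, Finset.mem_coe, Finset.mem_filter, Finset.mem_range] at ht ht'
    exact ptinj t ht.1 t' ht'.1 hh
  have hcardB : OB.card = blueF.card := by
    rw [hOB, Finset.card_image_of_injOn]
    intro t ht t' ht' hh
    rw [hblueF, Finset.mem_coe, Finset.mem_filter, Finset.mem_range] at ht ht'
    exact ptinj t ht.1 t' ht'.1 hh
  have hrb : redF.card + blueF.card = n := card_red_add_blue L k n
  have hht : (blueF.card : ℤ) - redF.card = WR.card - WB.card := by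
    have h1 := ht_diff L k 0 n (Nat.zero_le n)
    rw [← Finset.range_eq_Ico] at h1
    have h0 : ht L k 0 = 0 := by simp [ht]
    rw [h0, sub_zero] at h1
    rw [← h1]
    have hm : n = (k - 1) * (L + 2) + L + (k * L + WB.card - WR.card + 2 - 2 * k) := by
      have e : k * (L + 2) = (k - 1) * (L + 2) + (L + 2) := by
        obtain ⟨j, hj⟩ : ∃ j, k = j + 1 := ⟨k - 1, by omega⟩
        rw [hj]
        simp only [Nat.add_sub_cancel]
        ring
      omega
    rw [hm, ht_tail L k (by omega), ht_eq L k (k - 1) (by omega) L (by omega), if_pos le_rfl]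
    have e1 : ((k - 1 : ℕ) : ℤ) = (k : ℤ) - 1 := by
      rw [Nat.cast_sub (by omega)]
      simp
    have e2 : ((k * L + WB.card - WR.card + 2 - 2 * k : ℕ) : ℤ)
        = (k : ℤ) * L + WB.card - WR.card + 2 - 2 * k := by
      rw [Nat.cast_sub (by omega), Nat.cast_add, Nat.cast_sub (by omega)]
      push_cast
      ring
    rw [e1, e2]
    ring
  have hWRO : Disjoint WR OR := by
    refine Finset.disjoint_of_subset_left Finset.subset_union_left
      (Finset.disjoint_of_subset_right Finset.subset_union_left hWO)
  have hWBO : Disjoint WB OB := by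
    refine Finset.disjoint_of_subset_left Finset.subset_union_right
      (Finset.disjoint_of_subset_right Finset.subset_union_right hWO)
  have hWRB : Disjoint WR OB := by
    refine Finset.disjoint_of_subset_left Finset.subset_union_left
      (Finset.disjoint_of_subset_right Finset.subset_union_right hWO)
  have hWBR : Disjoint WB OR := by
    refine Finset.disjoint_of_subset_left Finset.subset_union_right
      (Finset.disjoint_of_subset_right Finset.subset_union_left hWO)
  have cR : (WR ∪ OR).card = WR.card + redF.card := by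
    rw [Finset.card_union_of_disjoint hWRO, hcardR]
  have cB : (WB ∪ OB).card = WB.card + blueF.card := by
    rw [Finset.card_union_of_disjoint hWBO, hcardB]
  have hRB : Disjoint (WR ∪ OR) (WB ∪ OB) := by
    rw [Finset.disjoint_union_left, Finset.disjoint_union_right, Finset.disjoint_union_right]
    exact ⟨⟨hW, hWRB⟩, ⟨hWBR.symm, hORB⟩⟩
  have cP : ((WR ∪ OR) ∪ (WB ∪ OB)).card = n + w := by
    rw [Finset.card_union_of_disjoint hRB, cR, cB]
    omega
  have hmain : ∀ E, IsPlaneTwoMatching (WR ∪ OR) (WB ∪ OB) E →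
      E.card + q < ((WR ∪ OR) ∪ (WB ∪ OB)).card := by
    intro E hE
    by_contra hcon
    push Not at hcon
    rw [cP] at hcon
    set f : ℕ × ℕ → (ℝ × ℝ) × (ℝ × ℝ) := fun e => (pt e.1, pt e.2) with hf
    set E' := (Finset.range n ×ˢ Finset.range n).filter
      (fun e => redPos L k e.1 ∧ ¬ redPos L k e.2 ∧ f e ∈ E) with hE'
    have hE'mem : ∀ e, e ∈ E' ↔ (e.1 < n ∧ e.2 < n) ∧ redPos L k e.1 ∧ ¬ redPos L k e.2 ∧ f e ∈ E := by
      intro e
      rw [hE', Finset.mem_filter, Finset.mem_product, Finset.mem_range, Finset.mem_range]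
    have hfinj : Set.InjOn f (E' : Set (ℕ × ℕ)) := by
      rintro ⟨x, y⟩ he ⟨x', y'⟩ he' hh
      rw [Finset.mem_coe, hE'mem] at he he'
      simp only [hf, Prod.mk.injEq] at hh
      simp only at he he'
      rw [ptinj x he.1.1 x' he'.1.1 hh.1, ptinj y he.1.2 y' he'.1.2 hh.2]
    have hptR : ∀ t < n, redPos L k t → pt t ∈ WR ∪ OR := by
      intro t ht hr
      apply Finset.mem_union_right
      rw [hOR, Finset.mem_image]
      exact ⟨t, by rw [hredF, Finset.mem_filter, Finset.mem_range]; exact ⟨ht, hr⟩, rfl⟩
    have hptB : ∀ t < n, ¬ redPos L k t → pt t ∈ WB ∪ OB := by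
      intro t ht hr
      apply Finset.mem_union_right
      rw [hOB, Finset.mem_image]
      exact ⟨t, by rw [hblueF, Finset.mem_filter, Finset.mem_range]; exact ⟨ht, hr⟩, rfl⟩
    have hMat : Mat L k n T E' := by
      refine ⟨fun e he => ((hE'mem e).mp he).1.1, fun e he => ((hE'mem e).mp he).1.2,
        fun e he => ((hE'mem e).mp he).2.1, fun e he => ((hE'mem e).mp he).2.2.1, ?_, ?_, ?_, ?_⟩
      · intro t
        by_cases ht : t < n ∧ redPos L k t
        · refine le_trans ?_ (hE.degRed (pt t) (hptR t ht.1 ht.2))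
          apply Finset.card_le_card_of_injOn f
          · intro e he
            rw [Finset.mem_coe, Finset.mem_filter] at he ⊢
            refine ⟨((hE'mem e).mp he.1).2.2.2, ?_⟩
            simp only [hf, he.2]
          · exact hfinj.mono (by intro e he; exact (Finset.mem_filter.mp he).1)
        · rw [Finset.card_eq_zero.mpr]
          · omega
          · rw [Finset.filter_eq_empty_iff]
            rintro e he rfl
            have := (hE'mem e).mp he
            exact ht ⟨this.1.1, this.2.1⟩
      · intro t
        by_cases ht : t < n ∧ ¬ redPos L k t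
        · refine le_trans ?_ (hE.degBlue (pt t) (hptB t ht.1 ht.2))
          apply Finset.card_le_card_of_injOn f
          · intro e he
            rw [Finset.mem_coe, Finset.mem_filter] at he ⊢
            refine ⟨((hE'mem e).mp he.1).2.2.2, ?_⟩
            simp only [hf, he.2]
          · exact hfinj.mono (by intro e he; exact (Finset.mem_filter.mp he).1)
        · rw [Finset.card_eq_zero.mpr]
          · omega
          · rw [Finset.filter_eq_empty_iff]
            rintro e he rfl
            have := (hE'mem e).mp he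
            exact ht ⟨this.1.2, this.2.2.1⟩
      · rintro e he g hg hn1 hn2 ⟨c1, c2, c3⟩
        rw [hE'mem] at he hg
        have hd := hE.noncrossing _ he.2.2.2 _ hg.2.2.2
          (fun hh => hn1 (ptinj _ he.1.1 _ hg.1.1 hh)) (fun hh => hn2 (ptinj _ he.1.2 _ hg.1.2 hh))
        exact chord_cross a b s n hs2 e.1 e.2 g.1 g.2 he.1.1 he.1.2 hg.1.1 hg.1.2 c1 c2 c3 hd
      · have hsub : E ⊆ (E'.image f) ∪ (E.filter (fun e => e.1 ∈ WR) ∪ E.filter (fun e => e.2 ∈ WB)) := by
          intro e he
          rw [Finset.mem_union, Finset.mem_union, Finset.mem_filter, Finset.mem_filter]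
          by_cases h1 : e.1 ∈ WR
          · exact Or.inr (Or.inl ⟨he, h1⟩)
          by_cases h2 : e.2 ∈ WB
          · exact Or.inr (Or.inr ⟨he, h2⟩)
          left
          have hr := (Finset.mem_union.mp (hE.red e he)).resolve_left h1
          have hb := (Finset.mem_union.mp (hE.blue e he)).resolve_left h2
          obtain ⟨t, ht, hrt, het⟩ := hmemR _ hr
          obtain ⟨t', ht', hrt', het'⟩ := hmemB _ hb
          rw [Finset.mem_image]
          refine ⟨(t, t'), ?_, ?_⟩
          · rw [hE'mem]
            refine ⟨⟨ht, ht'⟩, hrt, hrt', ?_⟩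
            simp only [hf]
            rw [het, het']
            exact he
          · simp only [hf]
            rw [het, het']
        have b1 : (E.filter (fun e => e.1 ∈ WR)).card ≤ 2 * WR.card := by
          apply Finset.card_le_mul_card_image_of_maps_to (f := Prod.fst)
          · intro e he
            exact (Finset.mem_filter.mp he).2
          · intro c hc
            refine le_trans (Finset.card_le_card ?_) (hE.degRed c (Finset.mem_union_left _ hc))
            intro e he
            rw [Finset.mem_filter] at he ⊢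
            exact ⟨(Finset.mem_filter.mp he.1).1, he.2⟩
        have b2 : (E.filter (fun e => e.2 ∈ WB)).card ≤ 2 * WB.card := by
          apply Finset.card_le_mul_card_image_of_maps_to (f := Prod.snd)
          · intro e he
            exact (Finset.mem_filter.mp he).2
          · intro c hc
            refine le_trans (Finset.card_le_card ?_) (hE.degBlue c (Finset.mem_union_left _ hc))
            intro e he
            rw [Finset.mem_filter] at he ⊢
            exact ⟨(Finset.mem_filter.mp he.1).1, he.2⟩
        have b3 : E.card ≤ E'.card + (2 * WR.card + 2 * WB.card) := by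
          calc E.card ≤ _ := Finset.card_le_card hsub
            _ ≤ (E'.image f).card + (E.filter (fun e => e.1 ∈ WR) ∪ E.filter (fun e => e.2 ∈ WB)).card :=
              Finset.card_union_le _ _
            _ ≤ E'.card + (2 * WR.card + 2 * WB.card) := by
              apply add_le_add Finset.card_image_le
              exact (Finset.card_union_le _ _).trans (add_le_add b1 b2)
        omega
    have := hMat.final (by omega) (by omega)
    omega
  refine ⟨OR, OB, ?_, hORB, hWO, ?_, ?_, ?_, hmain, ?_⟩
  · intro x hx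
    obtain ⟨t, ht, he⟩ := hmem x hx
    refine ⟨?_, ?_⟩
    · rw [← he]
      exact hpar _ (hs1 t ht).1 (by linarith [(hs1 t ht).2])
    · refine ⟨a + s t, b + (s t) ^ 2, ?_⟩
      rw [← he]
      simp only [hpt, par]
      push_cast
      rfl
  · have : (WR ∪ OR) ∪ (WB ∪ OB) = (WR ∪ WB) ∪ (Finset.range n).image (fun t => par a b (s t)) := by
      have hsplit : OR ∪ OB = (Finset.range n).image pt := by
        rw [hOR, hOB, ← Finset.image_union, hredF, hblueF, Finset.filter_union_filter_not_eq]
      rw [← hpt, ← hsplit]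
      ext x
      simp only [Finset.mem_union]
      tauto
    rw [this]
    exact hs4
  · rw [cR, cB]
    omega
  · rw [Finset.card_union_of_disjoint hORB, hcardR, hcardB, hrb]
    have : n ≤ 2 * (k * L) + WB.card := by omega
    refine this.trans ?_
    have hwb : WB.card ≤ w := by omega
    rw [hk, hL, hT]
    nlinarith
  · intro m p hp
    rcases Nat.eq_zero_or_pos m with h0 | hpos
    · subst h0
      have := hmain ∅ ⟨by simp, by simp, by simp, by simp, by simp⟩
      simp only [Finset.card_empty] at this
      omega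
    · obtain ⟨E, hE, hc⟩ := path_to_matching _ _ hRB m hpos p hp
      have := hmain E hE
      omega

end Pool.Agent.Results.MP_c6c039_lc.LocalObstruction
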